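import Pool.Agent.Helper57.QZ.Stmts

/-!
# QZ, row LO: the lower bound by tilting
-/

set_option autoImplicit false

namespace Pool.Agent.Helper57.QZ

open MeasureTheory Set Filter Topology

namespace LOaux

/-- functions of the cosines are integrable -/
theorem integ {y : ℕ} (g : (Pr y → ℝ) → ℝ) (hg : Continuous g) :
    Integrable (fun φ : Pr y → ℝ => g (fun p => Real.cos (φ p))) (tor y) := by
  have hK : IsCompact (Set.pi univ (fun _ : Pr y => Icc (-1 : ℝ) 1)) :=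
    isCompact_univ_pi fun _ => isCompact_Icc
  obtain ⟨C, hC⟩ := hK.exists_bound_of_continuousOn hg.continuousOn
  have hc : Continuous (fun φ : Pr y → ℝ => g (fun p => Real.cos (φ p))) :=
    hg.comp (continuous_pi fun p => Real.continuous_cos.comp (continuous_apply p))
  refine Integrable.of_bound hc.aestronglyMeasurable C ?_
  refine Eventually.of_forall fun φ => hC _ ?_
  intro p _
  exact ⟨Real.neg_one_le_cos _, Real.cos_le_one _⟩

theorem Vy_re (y : ℕ) (σ : ℝ) (φ : Pr y → ℝ) :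
    (Vy y σ φ).re = ∑ p : Pr y, aa σ p * Real.log p * Real.cos (φ p) := by
  unfold Vy
  rw [Complex.re_sum]
  refine Finset.sum_congr rfl fun p _ => ?_
  rw [Complex.re_ofReal_mul]
  have : -((φ p : ℂ) * Complex.I) = ((-φ p : ℝ) : ℂ) * Complex.I := by push_cast; ring
  rw [this, Complex.exp_ofReal_mul_I_re, Real.cos_neg]

/-- the tilting inequality with all the parameters free -/
theorem tilt (h1 : ST_PR0) (h2 : ST_PR1) (h3 : ST_DT1) {y : ℕ} {σ s η : ℝ} (hσ : 1 / 2 ≤ σ)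
    (hs : 0 ≤ s) (hη : 0 < η) (hom : 0 < omy y σ s)
    (hV : (1 / η ^ 2) * (∑ p : Pr y, aa σ p ^ 2 * vv (s * aa σ p)) +
      (16 / η) * (∑ p : Pr y, aa σ p ^ 2 * (1 - rr (s * aa σ p))) +
      (1 / (η * omy y σ s) ^ 2) *
        (∑ p : Pr y, (aa σ p * Real.log p) ^ 2 * vv (s * aa σ p)) ≤ 1 / 2) :
    (1 / 2) * Real.exp (-(Ly y σ s) - s * η) ≤
    (tor y).real {φ | muy y σ s - η ≤ Sy y σ φ ∧
      Sy y σ φ + Ky y σ - η ≤ Real.log ‖Zy y σ φ‖ ∧
      (1 - η) * omy y σ s ≤ (Vy y σ φ).re} := by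
  set c : Pr y → ℝ := fun p => s * aa σ p with hc
  set W : (Pr y → ℝ) → ℝ := fun φ => Real.exp (∑ p : Pr y, c p * Real.cos (φ p)) with hW
  set X1 : (Pr y → ℝ) → ℝ := fun φ => ∑ p : Pr y, aa σ p * (Real.cos (φ p) - rr (c p)) with hX1
  set D : (Pr y → ℝ) → ℝ := fun φ => ∑ p : Pr y, aa σ p ^ 2 * (1 - Real.cos (φ p)) with hD
  set X3 : (Pr y → ℝ) → ℝ :=
    fun φ => ∑ p : Pr y, (aa σ p * Real.log p) * (Real.cos (φ p) - rr (c p)) with hX3
  set Lam : ℝ := ∑ p : Pr y, ell (c p) with hLam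
  have hX1' : ∀ φ, X1 φ = Sy y σ φ - muy y σ s := by
    intro φ
    simp only [hX1, Sy, muy, hc, mul_sub, Finset.sum_sub_distrib]
  have hX3' : ∀ φ, X3 φ = (Vy y σ φ).re - omy y σ s := by
    intro φ
    rw [Vy_re]
    simp only [hX3, omy, hc, mul_sub, Finset.sum_sub_distrib]
  have hWS : ∀ φ, W φ = Real.exp (s * Sy y σ φ) := by
    intro φ
    simp only [hW, Sy, hc, Finset.mul_sum, mul_assoc]
  have hLy : Ly y σ s = s * muy y σ s - Lam := by
    simp only [Ly, muy, hLam, hc, Finset.mul_sum, Finset.sum_sub_distrib, mul_assoc]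
  -- continuity
  have cW : Continuous W := by simp only [hW]; fun_prop
  have cX1 : Continuous X1 := by simp only [hX1]; fun_prop
  have cD : Continuous D := by simp only [hD]; fun_prop
  have cX3 : Continuous X3 := by simp only [hX3]; fun_prop
  -- integrability
  have iW : Integrable W (tor y) :=
    integ (fun u => Real.exp (∑ p : Pr y, c p * u p)) (by fun_prop)
  have iX1 : Integrable (fun φ => X1 φ ^ 2 * W φ) (tor y) :=
    integ (fun u => (∑ p : Pr y, aa σ p * (u p - rr (c p))) ^ 2 *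
      Real.exp (∑ p : Pr y, c p * u p)) (by fun_prop)
  have iD : Integrable (fun φ => D φ * W φ) (tor y) :=
    integ (fun u => (∑ p : Pr y, aa σ p ^ 2 * (1 - u p)) *
      Real.exp (∑ p : Pr y, c p * u p)) (by fun_prop)
  have iX3 : Integrable (fun φ => X3 φ ^ 2 * W φ) (tor y) :=
    integ (fun u => (∑ p : Pr y, (aa σ p * Real.log p) * (u p - rr (c p))) ^ 2 *
      Real.exp (∑ p : Pr y, c p * u p)) (by fun_prop)
  -- the values of the integrals
  have vW : ∫ φ, W φ ∂tor y = Real.exp Lam := h1 y c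
  have vX1 : ∫ φ, X1 φ ^ 2 * W φ ∂tor y =
      Real.exp Lam * ∑ p : Pr y, aa σ p ^ 2 * vv (c p) := (h2 y (fun p => aa σ p) c).1
  have vD : ∫ φ, D φ * W φ ∂tor y =
      Real.exp Lam * ∑ p : Pr y, aa σ p ^ 2 * (1 - rr (c p)) := (h2 y (fun p => aa σ p ^ 2) c).2
  have vX3 : ∫ φ, X3 φ ^ 2 * W φ ∂tor y =
      Real.exp Lam * ∑ p : Pr y, (aa σ p * Real.log p) ^ 2 * vv (c p) :=
    (h2 y (fun p => aa σ p * Real.log p) c).1
  have hD0 : ∀ φ, 0 ≤ D φ := by
    intro φ
    refine Finset.sum_nonneg fun p _ => mul_nonneg (sq_nonneg _) ?_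
    linarith [Real.cos_le_one (φ p)]
  -- the good set
  set G : Set (Pr y → ℝ) := {φ | |X1 φ| ≤ η ∧ 16 * D φ ≤ η ∧ -(η * omy y σ s) ≤ X3 φ} with hG
  have mG : MeasurableSet G := by
    have hcl : IsClosed G := by
      simp only [hG]
      exact (isClosed_le cX1.abs continuous_const).inter
        ((isClosed_le (continuous_const.mul cD) continuous_const).inter
          (isClosed_le continuous_const cX3))
    exact hcl.measurableSet
  set K : ℝ := Real.exp (s * (muy y σ s + η)) with hK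
  have hKpos : 0 < K := Real.exp_pos _
  have key : ∀ φ, W φ - (1 / η ^ 2) * (X1 φ ^ 2 * W φ) - (16 / η) * (D φ * W φ) -
      (1 / (η * omy y σ s) ^ 2) * (X3 φ ^ 2 * W φ) ≤ G.indicator (fun _ => K) φ := by
    intro φ
    have hWpos : 0 < W φ := Real.exp_pos _
    have t1 : 0 ≤ (1 / η ^ 2) * X1 φ ^ 2 := by positivity
    have t2 : 0 ≤ (16 / η) * D φ := mul_nonneg (by positivity) (hD0 φ)
    have t3 : 0 ≤ (1 / (η * omy y σ s) ^ 2) * X3 φ ^ 2 := by positivity
    have e : W φ - (1 / η ^ 2) * (X1 φ ^ 2 * W φ) - (16 / η) * (D φ * W φ) -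
        (1 / (η * omy y σ s) ^ 2) * (X3 φ ^ 2 * W φ) = W φ * (1 - (1 / η ^ 2) * X1 φ ^ 2 -
        (16 / η) * D φ - (1 / (η * omy y σ s) ^ 2) * X3 φ ^ 2) := by ring
    rw [e]
    by_cases hφ : φ ∈ G
    · rw [indicator_of_mem hφ]
      have h4 : W φ ≤ K := by
        rw [hWS, hK]
        refine Real.exp_le_exp.2 (mul_le_mul_of_nonneg_left ?_ hs)
        have := (abs_le.1 hφ.1).2
        rw [hX1'] at this
        linarith
      calc W φ * (1 - (1 / η ^ 2) * X1 φ ^ 2 -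
        (16 / η) * D φ - (1 / (η * omy y σ s) ^ 2) * X3 φ ^ 2) ≤ W φ * 1 := by
            refine mul_le_mul_of_nonneg_left ?_ hWpos.le
            linarith
        _ ≤ K := by rw [mul_one]; exact h4
    · rw [indicator_of_notMem hφ]
      refine mul_nonpos_of_nonneg_of_nonpos hWpos.le ?_
      have h5 : η < |X1 φ| ∨ η < 16 * D φ ∨ X3 φ < -(η * omy y σ s) := by
        by_contra hcon
        push Not at hcon
        exact hφ ⟨hcon.1, hcon.2.1, hcon.2.2⟩
      rcases h5 with h5 | h5 | h5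
      · have : 1 ≤ (1 / η ^ 2) * X1 φ ^ 2 := by
          rw [one_div, ← div_eq_inv_mul, le_div_iff₀ (by positivity), one_mul, ← sq_abs (X1 φ)]
          exact pow_le_pow_left₀ hη.le h5.le 2
        linarith
      · have : 1 ≤ (16 / η) * D φ := by
          rw [div_mul_eq_mul_div, le_div_iff₀ hη, one_mul]
          exact h5.le
        linarith
      · have h6 : 0 < η * omy y σ s := mul_pos hη hom
        have : 1 ≤ (1 / (η * omy y σ s) ^ 2) * X3 φ ^ 2 := by
          rw [one_div, ← div_eq_inv_mul, le_div_iff₀ (by positivity), one_mul]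
          nlinarith
        linarith
  have j1 : Integrable (fun φ => (1 / η ^ 2) * (X1 φ ^ 2 * W φ)) (tor y) := iX1.const_mul _
  have j2 : Integrable (fun φ => (16 / η) * (D φ * W φ)) (tor y) := iD.const_mul _
  have j3 : Integrable (fun φ => (1 / (η * omy y σ s) ^ 2) * (X3 φ ^ 2 * W φ)) (tor y) :=
    iX3.const_mul _
  have k1 : Integrable (fun φ => W φ - (1 / η ^ 2) * (X1 φ ^ 2 * W φ)) (tor y) := iW.sub j1
  have k2 : Integrable (fun φ => W φ - (1 / η ^ 2) * (X1 φ ^ 2 * W φ) -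
      (16 / η) * (D φ * W φ)) (tor y) := k1.sub j2
  have iL : Integrable (fun φ => W φ - (1 / η ^ 2) * (X1 φ ^ 2 * W φ) - (16 / η) * (D φ * W φ) -
      (1 / (η * omy y σ s) ^ 2) * (X3 φ ^ 2 * W φ)) (tor y) := k2.sub j3
  have iR : Integrable (G.indicator (fun _ => K)) (tor y) :=
    (integrable_const K).indicator mG
  have hint := integral_mono iL iR key
  rw [integral_sub k2 j3, integral_sub k1 j2, integral_sub iW j1, integral_const_mul,
    integral_const_mul, integral_const_mul, vW, vX1, vD, vX3, integral_indicator_const K mG,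
    smul_eq_mul] at hint
  have hE : 0 < Real.exp Lam := Real.exp_pos _
  have h7 : Real.exp Lam * (1 / 2) ≤ (tor y).real G * K := by
    refine le_trans ?_ hint
    have := mul_le_mul_of_nonneg_left hV hE.le
    simp only [hc] at this ⊢
    nlinarith
  have h8 : (1 / 2) * Real.exp (-(Ly y σ s) - s * η) ≤ (tor y).real G := by
    have h9 : Real.exp Lam = Real.exp (-(Ly y σ s) - s * η) * K := by
      rw [hK, ← Real.exp_add, hLy]
      congr 1
      ring
    rw [h9] at h7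
    have : (1 / 2) * Real.exp (-(Ly y σ s) - s * η) * K ≤ (tor y).real G * K := by
      linarith
    exact le_of_mul_le_mul_right this hKpos
  refine h8.trans (measureReal_mono ?_)
  rintro φ ⟨g1, g2, g3⟩
  refine ⟨?_, ?_, ?_⟩
  · have := (abs_le.1 g1).1
    rw [hX1'] at this
    linarith
  · have := (h3 y σ φ hσ).2.2.1
    have h10 : (∑ p : Pr y, aa σ p ^ 2 * (1 - Real.cos (φ p))) = D φ := rfl
    rw [h10] at this
    linarith
  · rw [hX3'] at g3
    linarith

/-- the error terms tend to zero -/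
theorem small {ε κ : ℝ} (hε : 0 < ε) (hκ : 0 < κ) : ∃ z₁ : ℝ, ∀ z : ℝ, z₁ ≤ z →
    z ^ (-(2 * ε)) * Real.log z ^ 2 ≤ κ := by
  have h := (isLittleO_log_rpow_rpow_atTop (2 : ℝ) (by positivity : 0 < 2 * ε)).def hκ
  obtain ⟨z₁, hz⟩ := eventually_atTop.1 (h.and (eventually_ge_atTop (1 : ℝ)))
  refine ⟨z₁, fun z hz1 => ?_⟩
  obtain ⟨h1, h2⟩ := hz z hz1
  have hz0 : 0 < z := by linarith
  have hp : 0 < z ^ (2 * ε) := Real.rpow_pos_of_pos hz0 _
  rw [Real.rpow_two, Real.norm_of_nonneg (sq_nonneg _), Real.norm_of_nonneg hp.le] at h1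
  rw [Real.rpow_neg hz0.le, ← div_eq_inv_mul, div_le_iff₀ hp]
  exact h1

end LOaux

open LOaux in
/-- the lower bound by tilting -/
theorem lo_of (h1 : ST_PR0) (h2 : ST_PR1) (h3 : ST_DT1) (h4 : ST_SM1) (h5 : ST_SM5)
    (h6 : ST_VM2) (h7 : ST_VM3) : ST_LO := by
  intro ε hε η hη
  obtain ⟨C, hC⟩ := h4 ε hε
  obtain ⟨c, z₂, hz₂, hc, hSM5⟩ := h5
  have hη0 : 0 < η := hη.1
  have hε0 : 0 < ε := hε.1
  set A : ℝ := 1 / η ^ 2 + 16 / η + 1 / (η * c) ^ 2 with hA
  have hApos : 0 < A := by positivity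
  set M : ℝ := (|C| + 1) * A with hM
  have hMpos : 0 < M := by positivity
  obtain ⟨z₁, hz₁⟩ := small hε0 (show 0 < 1 / (2 * M) by positivity)
  refine ⟨max z₁ z₂, fun y σ z hσ hz hzy => ?_⟩
  have hzz1 : z₁ ≤ z := (le_max_left _ _).trans hz
  have hzz2 : z₂ ≤ z := (le_max_right _ _).trans hz
  have hz3 : 3 ≤ z := hz₂.trans hzz2
  have hz0 : 0 < z := by linarith
  have hσ2 : 1 / 2 ≤ σ := by linarith [hσ.1]
  have hlog1 : 1 ≤ Real.log z := by
    rw [Real.le_log_iff_exp_le hz0]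
    exact (Real.exp_one_lt_d9.le.trans (by norm_num)).trans hz3
  have hs0 : 0 < z ^ σ := Real.rpow_pos_of_pos hz0 _
  have hom1 : c * (Real.log z + z ^ (1 - σ)) ≤ omy y σ (z ^ σ) :=
    hSM5 y σ z ⟨hσ2, hσ.2⟩ hzz2 hzy
  have hzp : 0 < z ^ (1 - σ) := Real.rpow_pos_of_pos hz0 _
  have hom2 : c ≤ omy y σ (z ^ σ) := by nlinarith
  have hom : 0 < omy y σ (z ^ σ) := by linarith
  refine tilt h1 h2 h3 hσ2 hs0.le hη0 hom ?_
  obtain ⟨hS1, hS2⟩ := hC y σ z hσ (by linarith)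
  have hsm := hz₁ z hzz1
  set δ : ℝ := z ^ (-(2 * ε)) * Real.log z ^ 2 with hδ
  have hδ0 : 0 ≤ δ := by positivity
  have hap : ∀ p : Pr y, 0 < aa σ p := by
    intro p
    have hp : 0 < (p : ℕ) := (Nat.prime_of_mem_primesBelow p.2).pos
    exact Real.rpow_pos_of_pos (by exact_mod_cast hp) _
  have hlp : ∀ p : Pr y, 0 ≤ Real.log (p : ℕ) := fun p => Real.log_natCast_nonneg _
  have hvv : ∀ p : Pr y, 0 ≤ vv (z ^ σ * aa σ p) ∧
      vv (z ^ σ * aa σ p) ≤ min 1 (5 / (z ^ σ * aa σ p) ^ 2) := fun p =>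
    ⟨(h7.1 _).2.1, le_min (h7.1 _).2.2.1 (h6 _ (mul_pos hs0 (hap p))).2⟩
  have hrr : ∀ p : Pr y, 1 - rr (z ^ σ * aa σ p) ≤ min 1 (2 / (z ^ σ * aa σ p)) := fun p =>
    le_min (by linarith [(h7.2 _ (mul_pos hs0 (hap p)).le).1]) (h6 _ (mul_pos hs0 (hap p))).1
  have hCC : C * z ^ (-(2 * ε)) * Real.log z ^ 2 ≤ (|C| + 1) * δ := by
    rw [mul_assoc, ← hδ]
    exact mul_le_mul_of_nonneg_right (by linarith [le_abs_self C]) hδ0
  have e1 : ∑ p : Pr y, aa σ p ^ 2 * vv (z ^ σ * aa σ p) ≤ (|C| + 1) * δ := by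
    refine le_trans (Finset.sum_le_sum fun p _ => ?_) (hS1.trans hCC)
    have a1 : aa σ p ^ 2 * 1 ≤ aa σ p ^ 2 * (1 + Real.log p) ^ 2 := by
      refine mul_le_mul_of_nonneg_left ?_ (sq_nonneg _)
      have := hlp p
      nlinarith
    rw [mul_one] at a1
    exact mul_le_mul a1 (hvv p).2 (hvv p).1 (by positivity)
  have e2 : ∑ p : Pr y, aa σ p ^ 2 * (1 - rr (z ^ σ * aa σ p)) ≤ (|C| + 1) * δ :=
    le_trans (Finset.sum_le_sum fun p _ => mul_le_mul_of_nonneg_left (hrr p) (sq_nonneg _))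
      (hS2.trans hCC)
  have e3 : ∑ p : Pr y, (aa σ p * Real.log p) ^ 2 * vv (z ^ σ * aa σ p) ≤ (|C| + 1) * δ := by
    refine le_trans (Finset.sum_le_sum fun p _ => ?_) (hS1.trans hCC)
    have a1 : (aa σ p * Real.log p) ^ 2 ≤ aa σ p ^ 2 * (1 + Real.log p) ^ 2 := by
      rw [mul_pow]
      refine mul_le_mul_of_nonneg_left ?_ (sq_nonneg _)
      have := hlp p
      nlinarith
    exact mul_le_mul a1 (hvv p).2 (hvv p).1 (by positivity)
  have f1 := mul_le_mul_of_nonneg_left e1 (show 0 ≤ 1 / η ^ 2 by positivity)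
  have f2 := mul_le_mul_of_nonneg_left e2 (show 0 ≤ 16 / η by positivity)
  have f3 : (1 / (η * omy y σ (z ^ σ)) ^ 2) *
      (∑ p : Pr y, (aa σ p * Real.log p) ^ 2 * vv (z ^ σ * aa σ p)) ≤
      (1 / (η * c) ^ 2) * ((|C| + 1) * δ) := by
    refine mul_le_mul ?_ e3 ?_ (by positivity)
    · refine one_div_le_one_div_of_le (by positivity) ?_
      exact pow_le_pow_left₀ (by positivity) (mul_le_mul_of_nonneg_left hom2 hη0.le) 2
    · exact Finset.sum_nonneg fun p _ => mul_nonneg (sq_nonneg _) (hvv p).1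
  have f4 : M * δ ≤ 1 / 2 := by
    calc M * δ ≤ M * (1 / (2 * M)) := mul_le_mul_of_nonneg_left hsm hMpos.le
      _ = 1 / 2 := by field_simp
  have f5 : M * δ = (1 / η ^ 2) * ((|C| + 1) * δ) + (16 / η) * ((|C| + 1) * δ) +
      (1 / (η * c) ^ 2) * ((|C| + 1) * δ) := by
    rw [hM, hA]; ring
  linarith

end Pool.Agent.Helper57.QZ
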